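import Pool.Agent.Y507.CMC.Stm
set_option autoImplicit false

/-! # Four integrals along a thin convex curve (moments adapted from `Pool.Agent.Helper608.CurveC`) -/

open MeasureTheory Set
open scoped ContDiff

namespace Pool.Agent.Y507.CMC.Int2

open Pool.Agent.Y507.CMC


noncomputable def mo (n : ℕ) : ℝ := (2 * Real.pi)⁻¹ * ∫ θ in (0 : ℝ)..(2 * Real.pi), Real.cos θ ^ n

theorem mo_eq (n : ℕ) : ∫ t in Ico (0 : ℝ) 1, Real.cos (2 * Real.pi * t) ^ n = mo n := by
  rw [integral_Ico_eq_integral_Ioo, ← integral_Ioc_eq_integral_Ioo,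
    ← intervalIntegral.integral_of_le zero_le_one,
    intervalIntegral.integral_comp_mul_left (fun θ => Real.cos θ ^ n)
      (by positivity : (2 * Real.pi : ℝ) ≠ 0)]
  rw [mo, mul_zero, mul_one, smul_eq_mul]

theorem mo_zero : mo 0 = 1 := by
  rw [mo]
  have := Real.pi_pos
  simp
  field_simp

theorem mo_one : mo 1 = 0 := by
  rw [mo]
  simp

theorem mo_add_two (n : ℕ) : mo (n + 2) = (n + 1) / (n + 2) * mo n := by
  rw [mo, mo, integral_cos_pow]
  simp
  ring

theorem mo_two : mo 2 = 1 / 2 := by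
  rw [show (2 : ℕ) = 0 + 2 from rfl, mo_add_two, mo_zero]
  norm_num

theorem mo_three : mo 3 = 0 := by
  rw [show (3 : ℕ) = 1 + 2 from rfl, mo_add_two, mo_one]
  norm_num

theorem mo_four : mo 4 = 3 / 8 := by
  rw [show (4 : ℕ) = 2 + 2 from rfl, mo_add_two, mo_two]
  norm_num

theorem mo_five : mo 5 = 0 := by
  rw [show (5 : ℕ) = 3 + 2 from rfl, mo_add_two, mo_three]
  norm_num

theorem int_poly {n : ℕ} (p : Fin n → ℝ) :
    ∫ t in Ico (0 : ℝ) 1, ∑ i : Fin n, p i * Real.cos (2 * Real.pi * t) ^ (i : ℕ) =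
      ∑ i : Fin n, p i * mo i := by
  rw [integral_finsetSum]
  · refine Finset.sum_congr rfl (fun i _ => ?_)
    rw [integral_const_mul, mo_eq]
  · intro i _
    have hc : Continuous (fun t : ℝ => p i * Real.cos (2 * Real.pi * t) ^ (i : ℕ)) := by fun_prop
    exact (hc.integrableOn_Icc).mono_set Ico_subset_Icc_self

theorem intOn {f : ℝ → ℝ} (hf : Continuous f) : IntegrableOn f (Ico (0 : ℝ) 1) :=
  hf.integrableOn_Icc.mono_set Ico_subset_Icc_self

/-- antiderivative of `(a + b cos) 2Real.pi sin` -/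
theorem hasDeriv (a b t : ℝ) : HasDerivAt
    (fun t => -(a * Real.cos (2 * Real.pi * t) + b * Real.cos (2 * Real.pi * t) ^ 2 / 2))
    ((a + b * Real.cos (2 * Real.pi * t)) * (2 * Real.pi * Real.sin (2 * Real.pi * t))) t := by
  have h1 : HasDerivAt (fun t : ℝ => 2 * Real.pi * t) (2 * Real.pi) t := by
    simpa using (hasDerivAt_id t).const_mul (2 * Real.pi)
  have h2 := h1.cos
  have h3 := (h2.const_mul a).add (((h2.pow 2).const_mul b).div_const 2)
  have h4 := h3.neg
  refine h4.congr_deriv ?_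
  simp
  ring

theorem int_abs (a b : ℝ) :
    ∫ t in Ico (0 : ℝ) 1, (a + b * Real.cos (2 * Real.pi * t)) * (2 * Real.pi * |Real.sin (2 * Real.pi * t)|) =
      4 * a := by
  have hpi := Real.pi_pos
  rw [integral_Ico_eq_integral_Ioo, ← integral_Ioc_eq_integral_Ioo,
    ← intervalIntegral.integral_of_le zero_le_one]
  have hc : Continuous (fun t : ℝ =>
      (a + b * Real.cos (2 * Real.pi * t)) * (2 * Real.pi * |Real.sin (2 * Real.pi * t)|)) := by fun_prop
  have hs : Continuous (fun t : ℝ =>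
      (a + b * Real.cos (2 * Real.pi * t)) * (2 * Real.pi * Real.sin (2 * Real.pi * t))) := by fun_prop
  rw [← intervalIntegral.integral_add_adjacent_intervals (b := (1 / 2 : ℝ))
    (hc.intervalIntegrable _ _) (hc.intervalIntegrable _ _)]
  have e1 : ∫ t in (0 : ℝ)..(1 / 2),
      (a + b * Real.cos (2 * Real.pi * t)) * (2 * Real.pi * |Real.sin (2 * Real.pi * t)|) =
      ∫ t in (0 : ℝ)..(1 / 2), (a + b * Real.cos (2 * Real.pi * t)) * (2 * Real.pi * Real.sin (2 * Real.pi * t)) := by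
    refine intervalIntegral.integral_congr (fun t ht => ?_)
    rw [uIcc_of_le (by norm_num)] at ht
    have h0 : 0 ≤ Real.sin (2 * Real.pi * t) := by
      refine Real.sin_nonneg_of_nonneg_of_le_pi (by nlinarith [ht.1]) ?_
      nlinarith [ht.2]
    simp only [abs_of_nonneg h0]
  have e2 : ∫ t in (1 / 2 : ℝ)..1,
      (a + b * Real.cos (2 * Real.pi * t)) * (2 * Real.pi * |Real.sin (2 * Real.pi * t)|) =
      ∫ t in (1 / 2 : ℝ)..1,
        -((a + b * Real.cos (2 * Real.pi * t)) * (2 * Real.pi * Real.sin (2 * Real.pi * t))) := by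
    refine intervalIntegral.integral_congr (fun t ht => ?_)
    rw [uIcc_of_le (by norm_num)] at ht
    have h0 : Real.sin (2 * Real.pi * t) ≤ 0 := by
      have h1 : 0 ≤ Real.sin (2 * Real.pi * t - Real.pi) := by
        refine Real.sin_nonneg_of_nonneg_of_le_pi (by nlinarith [ht.1]) ?_
        nlinarith [ht.2]
      rw [Real.sin_sub_pi] at h1
      linarith
    simp only [abs_of_nonpos h0]
    ring
  rw [e1, e2, intervalIntegral.integral_neg,
    intervalIntegral.integral_eq_sub_of_hasDerivAt (fun t _ => hasDeriv a b t)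
      (hs.intervalIntegrable _ _),
    intervalIntegral.integral_eq_sub_of_hasDerivAt (fun t _ => hasDeriv a b t)
      (hs.intervalIntegrable _ _)]
  have c0 : Real.cos (2 * Real.pi * 0) = 1 := by simp
  have c1 : Real.cos (2 * Real.pi * (1 / 2)) = -1 := by
    rw [show 2 * Real.pi * (1 / 2) = Real.pi by ring, Real.cos_pi]
  have c2 : Real.cos (2 * Real.pi * 1) = 1 := by
    rw [show 2 * Real.pi * 1 = 2 * Real.pi by ring, Real.cos_two_pi]
  rw [c0, c1, c2]
  ring

theorem deriv_k0 (w x : ℝ) : deriv (k0 w) x = w * (3 / 4 + 2 / 5 * x) := by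
  have h : HasDerivAt (k0 w) (w * (3 / 4 + 2 / 5 * x)) x := by
    have h1 := (((hasDerivAt_id x).const_mul (3 / 4 : ℝ)).const_add (1 : ℝ)).add
      ((hasDerivAt_pow 2 x).const_mul (1 / 5 : ℝ))
    have h2 := h1.const_mul w
    refine (h2.congr_deriv ?_)
    rw [show (2 : ℕ) - 1 = 1 from rfl]
    push_cast
    ring
  exact h.deriv

theorem contDiff_k0 (w : ℝ) : ContDiff ℝ ∞ (k0 w) := by
  unfold k0
  fun_prop

theorem k0_pos {w : ℝ} (hw : 0 < w) (x : ℝ) : 0 < k0 w x := by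
  unfold k0
  refine mul_pos hw ?_
  nlinarith [sq_nonneg (x + 15 / 8)]

theorem norm_e2 (v : E2) : ‖v‖ = Real.sqrt (v 0 ^ 2 + v 1 ^ 2) := by
  rw [EuclideanSpace.norm_eq, Fin.sum_univ_two]
  simp

theorem norm_le_abs (v : E2) : ‖v‖ ≤ |v 0| + |v 1| := by
  rw [norm_e2]
  refine Real.sqrt_le_iff.2 ⟨by positivity, ?_⟩
  have h0 := sq_abs (v 0)
  have h1 := sq_abs (v 1)
  have h2 := abs_nonneg (v 0)
  have h3 := abs_nonneg (v 1)
  nlinarith [mul_nonneg h2 h3]

theorem abs_le_norm (v : E2) : |v 0| ≤ ‖v‖ := by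
  rw [norm_e2]
  refine Real.abs_le_sqrt ?_
  nlinarith [sq_nonneg (v 1)]

theorem pbound {c : ℝ} (h1 : -1 ≤ c) (h2 : c ≤ 1) :
    |(1 + 3 / 4 * c + 1 / 5 * c ^ 2) * c - (3 / 4 + 2 / 5 * c) * (1 - c ^ 2)| ≤ 31 / 10 := by
  have hc2 : c ^ 2 ≤ 1 := by nlinarith
  have hc3 : c ^ 3 ≤ 1 := by nlinarith [mul_nonneg (sub_nonneg.2 h2) (sq_nonneg c)]
  have hc4 : -1 ≤ c ^ 3 := by nlinarith [mul_nonneg (neg_le_iff_add_nonneg.1 h1) (sq_nonneg c)]
  have hc5 : 0 ≤ c ^ 2 := sq_nonneg c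
  rw [abs_le]
  constructor <;> nlinarith

theorem thm : S_INT2 := by
  intro hcur w hw
  have hpi := Real.pi_pos
  have hpi2 := Real.pi_lt_d2
  obtain ⟨hsm, -, -, -, hd0, hd1⟩ := hcur (fun _ => 0) (k0 w) contDiff_const (contDiff_k0 w)
    (k0_pos hw)
  have hcd : Continuous (deriv (cur (fun _ => 0) (k0 w))) :=
    hsm.continuous_deriv (by simp)
  have hx0 : ∀ t, cur (fun _ => 0) (k0 w) t 0 = Real.cos (2 * Real.pi * t) := fun t => by simp [cur]
  have hd1' : ∀ t, deriv (cur (fun _ => 0) (k0 w)) t 1 = 2 * Real.pi * w *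
      ((1 + 3 / 4 * Real.cos (2 * Real.pi * t) + 1 / 5 * Real.cos (2 * Real.pi * t) ^ 2) *
        Real.cos (2 * Real.pi * t) - (3 / 4 + 2 / 5 * Real.cos (2 * Real.pi * t)) *
          (1 - Real.cos (2 * Real.pi * t) ^ 2)) := by
    intro t
    rw [hd1 t, deriv_k0, k0]
    have hs : Real.sin (2 * Real.pi * t) ^ 2 = 1 - Real.cos (2 * Real.pi * t) ^ 2 := Real.sin_sq _
    simp only [deriv_const']
    have : 2 * Real.pi * (w * (1 + 3 / 4 * Real.cos (2 * Real.pi * t) + 1 / 5 * Real.cos (2 * Real.pi * t) ^ 2) *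
        Real.cos (2 * Real.pi * t) - (0 + w * (3 / 4 + 2 / 5 * Real.cos (2 * Real.pi * t)) *
          Real.sin (2 * Real.pi * t)) * Real.sin (2 * Real.pi * t)) = 2 * Real.pi * w *
      ((1 + 3 / 4 * Real.cos (2 * Real.pi * t) + 1 / 5 * Real.cos (2 * Real.pi * t) ^ 2) *
        Real.cos (2 * Real.pi * t) - (3 / 4 + 2 / 5 * Real.cos (2 * Real.pi * t)) *
          Real.sin (2 * Real.pi * t) ^ 2) := by ring
    rw [this, hs]
  simp only [hx0]
  refine ⟨?_, ?_, ?_, ?_⟩
  · have h := int_abs 1 0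
    have h2 : ∫ t in Ico (0 : ℝ) 1, (1 + 0 * Real.cos (2 * Real.pi * t)) *
        (2 * Real.pi * |Real.sin (2 * Real.pi * t)|) ≤
        ∫ t in Ico (0 : ℝ) 1, ‖deriv (cur (fun _ => 0) (k0 w)) t‖ := by
      refine setIntegral_mono (intOn (by fun_prop)) (intOn hcd.norm) (fun t => ?_)
      have h3 := abs_le_norm (deriv (cur (fun _ => 0) (k0 w)) t)
      rw [hd0 t, abs_neg, abs_mul, abs_of_pos (by positivity : (0 : ℝ) < 2 * Real.pi)] at h3
      simpa using h3
    linarith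
  · have h := int_abs 1 1
    have hp := int_poly (n := 2) ![2 * Real.pi * w * (31 / 10), 2 * Real.pi * w * (31 / 10)]
    simp only [Fin.sum_univ_succ, Fin.sum_univ_zero, Matrix.cons_val_zero,
      Matrix.cons_val_succ, Fin.val_zero, Fin.val_succ, mo_zero, mo_one, zero_add] at hp
    have hadd : ∫ t in Ico (0 : ℝ) 1, ((1 + 1 * Real.cos (2 * Real.pi * t)) *
        (2 * Real.pi * |Real.sin (2 * Real.pi * t)|) + (2 * Real.pi * w * (31 / 10) * Real.cos (2 * Real.pi * t) ^ 0 +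
          (2 * Real.pi * w * (31 / 10) * Real.cos (2 * Real.pi * t) ^ 1 + 0))) =
        4 * 1 + (2 * Real.pi * w * (31 / 10) * 1 + (2 * Real.pi * w * (31 / 10) * 0 + 0)) := by
      rw [integral_add (intOn (by fun_prop)) (intOn (by fun_prop)), h, hp]
    have h2 : ∫ t in Ico (0 : ℝ) 1, |1 + Real.cos (2 * Real.pi * t)| *
        ‖deriv (cur (fun _ => 0) (k0 w)) t‖ ≤
        ∫ t in Ico (0 : ℝ) 1, ((1 + 1 * Real.cos (2 * Real.pi * t)) *
        (2 * Real.pi * |Real.sin (2 * Real.pi * t)|) + (2 * Real.pi * w * (31 / 10) * Real.cos (2 * Real.pi * t) ^ 0 +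
          (2 * Real.pi * w * (31 / 10) * Real.cos (2 * Real.pi * t) ^ 1 + 0))) := by
      refine setIntegral_mono (intOn ?_) (intOn (by fun_prop)) (fun t => ?_)
      · exact ((by fun_prop : Continuous fun t : ℝ => |1 + Real.cos (2 * Real.pi * t)|)).mul hcd.norm
      have hc1 := Real.neg_one_le_cos (2 * Real.pi * t)
      have hc2 := Real.cos_le_one (2 * Real.pi * t)
      have h3 := norm_le_abs (deriv (cur (fun _ => 0) (k0 w)) t)
      rw [hd0 t, abs_neg, abs_mul, abs_of_pos (by positivity : (0 : ℝ) < 2 * Real.pi), hd1' t,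
        abs_mul, abs_of_pos (by positivity : (0 : ℝ) < 2 * Real.pi * w)] at h3
      have h4 := pbound hc1 hc2
      have h5 : ‖deriv (cur (fun _ => 0) (k0 w)) t‖ ≤ 2 * Real.pi * |Real.sin (2 * Real.pi * t)| +
          2 * Real.pi * w * (31 / 10) := by
        refine h3.trans (add_le_add le_rfl ?_)
        exact mul_le_mul_of_nonneg_left h4 (by positivity)
      have h6 : 0 ≤ 1 + Real.cos (2 * Real.pi * t) := by linarith
      have h7 := mul_le_mul_of_nonneg_left h5 h6
      simp only [abs_of_nonneg h6]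
      refine h7.trans (le_of_eq ?_)
      ring
    rw [hadd] at h2
    nlinarith
  · have hp := int_poly (n := 5) ![0, 2 * Real.pi * w * (-3 / 4), 2 * Real.pi * w * (3 / 5),
      2 * Real.pi * w * (3 / 2), 2 * Real.pi * w * (3 / 5)]
    simp only [Fin.sum_univ_succ, Fin.sum_univ_zero, Matrix.cons_val_zero,
      Matrix.cons_val_succ, Fin.val_zero, Fin.val_succ, mo_zero, mo_one, mo_two, mo_three, mo_four,
      zero_add, Nat.reduceAdd] at hp
    rw [show 21 / 20 * Real.pi * w = 0 * 1 + (2 * Real.pi * w * (-3 / 4) * 0 + (2 * Real.pi * w * (3 / 5) * (1 / 2) +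
      (2 * Real.pi * w * (3 / 2) * 0 + (2 * Real.pi * w * (3 / 5) * (3 / 8) + 0)))) by ring]
    refine Eq.trans ?_ hp
    congr 1
    ext t
    rw [hd1' t]
    ring
  · have hp := int_poly (n := 6) ![0, 0, Real.pi * w * (-3 / 4), Real.pi * w * (3 / 5),
      Real.pi * w * (3 / 2), Real.pi * w * (3 / 5)]
    simp only [Fin.sum_univ_succ, Fin.sum_univ_zero, Matrix.cons_val_zero,
      Matrix.cons_val_succ, Fin.val_zero, Fin.val_succ, mo_zero, mo_one, mo_two, mo_three, mo_four,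
      mo_five, zero_add, Nat.reduceAdd] at hp
    refine Eq.trans ?_ (hp.trans ?_)
    · congr 1
      ext t
      rw [hd1' t]
      ring
    · ring

end Pool.Agent.Y507.CMC.Int2
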