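import Pool.Agent.Y507.CMC.Stm
set_option autoImplicit false

/-! # Two areas -/

open MeasureTheory Set
open scoped ContDiff

namespace Pool.Agent.Y507.CMC

lemma int_sqrt : ∫ x in (-1 : ℝ)..1, Real.sqrt (1 - x ^ 2) = Real.pi / 2 :=
  integral_sqrt_one_sub_sq

lemma cont_sqrt : Continuous fun x : ℝ => Real.sqrt (1 - x ^ 2) := by fun_prop

lemma int_x_sqrt : ∫ x in (-1 : ℝ)..1, x * Real.sqrt (1 - x ^ 2) = 0 := by
  have h := intervalIntegral.integral_comp_neg (fun x : ℝ => x * Real.sqrt (1 - x ^ 2))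
    (a := (-1 : ℝ)) (b := 1)
  simp only [neg_neg, neg_sq, neg_mul] at h
  rw [intervalIntegral.integral_neg] at h
  linarith

lemma int_x2_sqrt : ∫ x in (-1 : ℝ)..1, x ^ 2 * Real.sqrt (1 - x ^ 2) = Real.pi / 8 := by
  have h1 : ∫ x in (-1 : ℝ)..1, (1 - 4 * x ^ 2) * Real.sqrt (1 - x ^ 2) =
      1 * (1 - (1 : ℝ) ^ 2) * Real.sqrt (1 - (1 : ℝ) ^ 2) -
        (-1) * (1 - (-1 : ℝ) ^ 2) * Real.sqrt (1 - (-1 : ℝ) ^ 2) := by
    refine intervalIntegral.integral_eq_sub_of_hasDerivAt_of_le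
      (f := fun x : ℝ => x * (1 - x ^ 2) * Real.sqrt (1 - x ^ 2)) (by norm_num) ?_ ?_ ?_
    · exact (Continuous.mul (by fun_prop) cont_sqrt).continuousOn
    · intro x hx
      have hpos : 0 < 1 - x ^ 2 := by nlinarith [hx.1, hx.2]
      have hd1 : HasDerivAt (fun x : ℝ => x * (1 - x ^ 2)) (1 - 3 * x ^ 2) x := by
        have := (hasDerivAt_id x).mul (((hasDerivAt_id x).pow 2).const_sub 1)
        refine this.congr_deriv ?_
        simp
        ring
      have hd2 : HasDerivAt (fun x : ℝ => Real.sqrt (1 - x ^ 2))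
          (-x / Real.sqrt (1 - x ^ 2)) x := by
        have := (((hasDerivAt_id x).pow 2).const_sub 1).sqrt (by simpa using hpos.ne')
        refine this.congr_deriv ?_
        simp
        field_simp
      refine (hd1.mul hd2).congr_deriv ?_
      have hs : Real.sqrt (1 - x ^ 2) ^ 2 = 1 - x ^ 2 := Real.sq_sqrt hpos.le
      have hs0 : Real.sqrt (1 - x ^ 2) ≠ 0 := (Real.sqrt_pos.2 hpos).ne'
      set S := Real.sqrt (1 - x ^ 2)
      field_simp
      have h3 : x ^ 2 = 1 - S ^ 2 := by rw [hs]; ring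
      nlinarith [h3]
    · exact (Continuous.mul (by fun_prop) cont_sqrt).intervalIntegrable _ _
  have h2 : ∫ x in (-1 : ℝ)..1, (1 - 4 * x ^ 2) * Real.sqrt (1 - x ^ 2) =
      Real.pi / 2 - 4 * ∫ x in (-1 : ℝ)..1, x ^ 2 * Real.sqrt (1 - x ^ 2) := by
    rw [← int_sqrt, ← intervalIntegral.integral_const_mul, ← intervalIntegral.integral_sub]
    · refine intervalIntegral.integral_congr fun x _ => ?_
      ring
    · exact cont_sqrt.intervalIntegrable _ _
    · exact (Continuous.mul (by fun_prop)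
        (Continuous.mul (by fun_prop) cont_sqrt)).intervalIntegrable _ _
  rw [h2] at h1
  norm_num at h1
  linarith

lemma area_one : ∫ x in (-1 : ℝ)..1, 2 * (1 : ℝ) * Real.sqrt (1 - x ^ 2) = Real.pi := by
  rw [intervalIntegral.integral_const_mul, int_sqrt]
  ring

lemma area_k0 (w : ℝ) : ∫ x in (-1 : ℝ)..1, 2 * k0 w x * Real.sqrt (1 - x ^ 2) =
    21 / 20 * Real.pi * w := by
  have h : ∀ x : ℝ, 2 * k0 w x * Real.sqrt (1 - x ^ 2) =
      2 * w * Real.sqrt (1 - x ^ 2) + (3 / 2 * w * (x * Real.sqrt (1 - x ^ 2)) +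
        2 / 5 * w * (x ^ 2 * Real.sqrt (1 - x ^ 2))) := by
    intro x
    unfold k0
    ring
  simp only [h]
  rw [intervalIntegral.integral_add, intervalIntegral.integral_add,
    intervalIntegral.integral_const_mul, intervalIntegral.integral_const_mul,
    intervalIntegral.integral_const_mul, int_sqrt, int_x_sqrt, int_x2_sqrt]
  · ring
  all_goals
    apply Continuous.intervalIntegrable
    fun_prop

end Pool.Agent.Y507.CMC
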