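import Pool.Agent.Helper442.CMC.Bound
set_option autoImplicit false

/-! # The balance of fluxes and torques with an affine weight -/

open Set MeasureTheory Filter Topology
open scoped Manifold ContDiff InnerProductSpace

set_option linter.unusedSectionVars false

namespace Pool.Agent.Y507.CMC

open Pool.Agent.Helper608

section

variable {M : Type*} [TopologicalSpace M] [ChartedSpace (EuclideanHalfSpace 2) M]
  [IsManifold (𝓡∂ 2) ∞ M]
  {f N : M → Helper608.E3} {H : ℝ}
  {γ : ℝ → Helper608.E3} {β : ℝ → M}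
  [MeasurableSpace M] [BorelSpace M] [CompactSpace M] [T2Space M]

/-- the balance with weight `α + b x` -/
theorem bal (P : BdOne f γ β) (h : Helper608.IsCMCImmersion f N H)
    {μ : Measure M} (hμ : IsAreaMeasure f μ) (hz : ∀ t, γ t 2 = 0) (α b : ℝ) :
    |2 * H * (α * (∫ t in Ico (0:ℝ) 1, γ t 0 * deriv γ t 1) +
        b * ∫ t in Ico (0:ℝ) 1, γ t 0 ^ 2 / 2 * deriv γ t 1)| ≤
      ∫ t in Ico (0:ℝ) 1, |α + b * γ t 0| * ‖deriv γ t‖ := by
  have h1 := BdOne.flux P h hμ
  have h2 := BdOne.torque P h hμ hz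
  set A := ∫ t in Ico (0:ℝ) 1, γ t 0 * deriv γ t 1 with hA
  set B := ∫ t in Ico (0:ℝ) 1, γ t 0 ^ 2 / 2 * deriv γ t 1 with hB
  set w : ℝ → ℝ := fun t => ⟪Helper608.cross ez3 (N (β t)), deriv γ t⟫_ℝ with hw
  have hwabs : ∀ t, |w t| ≤ ‖deriv γ t‖ := fun t => abs_wf_le h t
  have hdc : Continuous (deriv γ) := P.c.smooth.continuous_deriv (by simp)
  have hwc : Continuous w := by
    have hc : Continuous (fun t => Helper608.cross ez3 (N (β t))) :=
      (crossL ez3).continuous.comp (h.smooth_normal.continuous.comp P.c.cont)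
    exact hc.inner hdc
  have hγc : Continuous (fun t => γ t 0) :=
    (pr 0).continuous.comp P.c.smooth.continuous
  have hint : ∀ g : ℝ → ℝ, Continuous g → IntegrableOn g (Ico (0:ℝ) 1) := fun g hg =>
    (hg.integrableOn_Icc).mono_set Ico_subset_Icc_self
  have h1' : ∫ t in Ico (0:ℝ) 1, w t = -(2 * H * A) := h1
  have h2' : ∫ t in Ico (0:ℝ) 1, γ t 0 * w t = -(2 * H * B) := h2
  have i1 : IntegrableOn (fun t => α * w t) (Ico (0:ℝ) 1) := hint _ (continuous_const.mul hwc)
  have i2 : IntegrableOn (fun t => b * (γ t 0 * w t)) (Ico (0:ℝ) 1) :=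
    hint _ (continuous_const.mul (hγc.mul hwc))
  have key : ∫ t in Ico (0:ℝ) 1, (α + b * γ t 0) * w t = -(2 * H * (α * A + b * B)) := by
    have e : (fun t => (α + b * γ t 0) * w t) = fun t => α * w t + b * (γ t 0 * w t) := by
      ext t
      ring
    rw [e, integral_add i1 i2, integral_const_mul, integral_const_mul, h1', h2']
    ring
  rw [← abs_neg, ← key, ← Real.norm_eq_abs]
  refine (norm_integral_le_integral_norm _).trans ?_
  have hac : Continuous (fun t => α + b * γ t 0) :=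
    continuous_const.add (continuous_const.mul hγc)
  refine integral_mono (hint _ ((hac.mul hwc).norm)) (hint _ (hac.abs.mul hdc.norm)) ?_
  intro t
  simp only [Real.norm_eq_abs, abs_mul]
  exact mul_le_mul_of_nonneg_left (hwabs t) (abs_nonneg _)

end

/-- the balance for a plane boundary curve -/
theorem bal_planar {γ : ℝ → Helper608.E2} (hs : ContDiff ℝ ∞ γ) (hp : Function.Periodic γ 1)
    (hd : ∀ t, deriv γ t ≠ 0) (hi : InjOn γ (Ico 0 1))
    {M : Type*} [TopologicalSpace M] [T2Space M] [CompactSpace M]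
    [ChartedSpace (EuclideanHalfSpace 2) M] [IsManifold (𝓡∂ 2) ∞ M]
    {f N : M → Helper608.E3} {H : ℝ} (h : Helper608.IsCMCImmersion f N H)
    (hinj : InjOn f ((𝓡∂ 2).boundary M))
    (hbd : f '' ((𝓡∂ 2).boundary M) = Helper608.inclP '' (range γ)) (α b : ℝ) :
    |2 * H * (α * (∫ t in Ico (0:ℝ) 1, γ t 0 * deriv γ t 1) +
        b * ∫ t in Ico (0:ℝ) 1, γ t 0 ^ 2 / 2 * deriv γ t 1)| ≤
      ∫ t in Ico (0:ℝ) 1, |α + b * γ t 0| * ‖deriv γ t‖ := by
  borelize M
  obtain ⟨μ, hμ⟩ := exists_isAreaMeasure f h.smooth_map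
  obtain ⟨β, B⟩ := exists_bdCurve h hinj hbd hs hd (fun t => ⟨t, rfl⟩)
  have P : BdOne f (fun t => Helper608.inclP (γ t)) β := by
    refine ⟨B, fun t ht t' ht' he => hi ht ht' (inclP_injective he), ?_⟩
    intro m hm
    have h3 : f m ∈ Helper608.inclP '' (range γ) := by rw [← hbd]; exact ⟨m, hm, rfl⟩
    obtain ⟨x, ⟨s, rfl⟩, hxf⟩ := h3
    obtain ⟨t, ht, hte⟩ := hp.exists_mem_Ico₀ one_pos s
    refine ⟨t, ht, ?_⟩
    apply hinj (B.mem t) hm
    rw [B.lift, ← hte, hxf]
  have hdiff : Differentiable ℝ γ := hs.differentiable (by simp)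
  have e1 : ∀ t, deriv (fun t => Helper608.inclP (γ t)) t = Helper608.inclP (deriv γ t) :=
    deriv_incl γ hdiff
  have e2 : ∀ t, ‖deriv (fun t => Helper608.inclP (γ t)) t‖ = ‖deriv γ t‖ := fun t => by
    rw [e1, norm_inclP]
  have e3 : ∀ t, deriv (fun t => Helper608.inclP (γ t)) t 1 = deriv γ t 1 := fun t => by
    rw [e1]
    simp [Helper608.inclP]
  have e4 : ∀ t, Helper608.inclP (γ t) 0 = γ t 0 := fun t => by simp [Helper608.inclP]
  have key := bal P h hμ (fun t => by simp [Helper608.inclP]) α b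
  simp only [e2, e3, e4] at key
  exact key

end Pool.Agent.Y507.CMC
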