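import Mathlib
set_option autoImplicit false

/-! # Plane curves with small constant mean curvatures: statements of elementary steps -/

open MeasureTheory Set
open scoped ContDiff

namespace Pool.Agent.Y507.CMC

/-- the plane -/
abbrev E2 := EuclideanSpace ℝ (Fin 2)

/-- the image of the unit circle under `(x, y) ↦ (x, g x + k x * y)` -/
noncomputable def cur (g k : ℝ → ℝ) (t : ℝ) : E2 :=
  !₂[Real.cos (2 * Real.pi * t),
    g (Real.cos (2 * Real.pi * t)) + k (Real.cos (2 * Real.pi * t)) * Real.sin (2 * Real.pi * t)]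

/-- the image of the unit disk -/
def dom (g k : ℝ → ℝ) : Set E2 := {x | x 0 ^ 2 + ((x 1 - g (x 0)) / k (x 0)) ^ 2 < 1}

/-- CUR -/
def S_CUR : Prop := ∀ g k : ℝ → ℝ, ContDiff ℝ ∞ g → ContDiff ℝ ∞ k → (∀ x, 0 < k x) →
  ContDiff ℝ ∞ (cur g k) ∧ Function.Periodic (cur g k) 1 ∧ (∀ t, deriv (cur g k) t ≠ 0) ∧
  InjOn (cur g k) (Ico 0 1) ∧
  (∀ t, deriv (cur g k) t 0 = -(2 * Real.pi * Real.sin (2 * Real.pi * t))) ∧
  ∀ t, deriv (cur g k) t 1 = 2 * Real.pi *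
    (k (Real.cos (2 * Real.pi * t)) * Real.cos (2 * Real.pi * t) -
      (deriv g (Real.cos (2 * Real.pi * t)) +
        deriv k (Real.cos (2 * Real.pi * t)) * Real.sin (2 * Real.pi * t)) *
        Real.sin (2 * Real.pi * t))

/-- DOM -/
def S_DOM : Prop := ∀ g k : ℝ → ℝ, Continuous g → Continuous k → (∀ x, 0 < k x) →
  IsOpen (dom g k) ∧ IsConnected (dom g k) ∧ Bornology.IsBounded (dom g k) ∧
    frontier (dom g k) = range (cur g k)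

/-- VOL -/
def S_VOL : Prop := ∀ g k : ℝ → ℝ, Continuous g → Continuous k → (∀ x, 0 < k x) →
  (volume (dom g k)).toReal = ∫ x in (-1 : ℝ)..1, 2 * k x * Real.sqrt (1 - x ^ 2)

/-- the profile of the convex curve -/
noncomputable def k0 (w x : ℝ) : ℝ := w * (1 + 3 / 4 * x + 1 / 5 * x ^ 2)

/-- CVX -/
def S_CVX : Prop := ∀ w : ℝ, 0 < w → Convex ℝ (dom (fun _ => 0) (k0 w))

/-- the steep function -/
noncomputable def g0 (a x : ℝ) : ℝ :=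
  a * (a * (x - 1 / 2)) / Real.sqrt (1 + (a * (x - 1 / 2)) ^ 2)

/-- INT1 -/
def S_INT1 : Prop := S_CUR → ∀ a : ℝ, 2 ≤ a →
  3 * a ≤ ∫ t in Ico (0 : ℝ) 1, ‖deriv (cur (g0 a) fun _ => 1) t‖ ∧
  ∫ t in Ico (0 : ℝ) 1, |cur (g0 a) (fun _ => 1) t 0 - 1 / 2| *
    ‖deriv (cur (g0 a) fun _ => 1) t‖ ≤ 8 * Real.pi ∧
  ∫ t in Ico (0 : ℝ) 1, cur (g0 a) (fun _ => 1) t 0 * deriv (cur (g0 a) fun _ => 1) t 1 =
    Real.pi ∧
  ∫ t in Ico (0 : ℝ) 1, cur (g0 a) (fun _ => 1) t 0 ^ 2 / 2 *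
    deriv (cur (g0 a) fun _ => 1) t 1 = 0

/-- INT2 -/
def S_INT2 : Prop := S_CUR → ∀ w : ℝ, 0 < w →
  4 ≤ ∫ t in Ico (0 : ℝ) 1, ‖deriv (cur (fun _ => 0) (k0 w)) t‖ ∧
  ∫ t in Ico (0 : ℝ) 1, |1 + cur (fun _ => 0) (k0 w) t 0| *
    ‖deriv (cur (fun _ => 0) (k0 w)) t‖ ≤ 4 + 20 * w ∧
  ∫ t in Ico (0 : ℝ) 1, cur (fun _ => 0) (k0 w) t 0 * deriv (cur (fun _ => 0) (k0 w)) t 1 =
    21 / 20 * Real.pi * w ∧
  ∫ t in Ico (0 : ℝ) 1, cur (fun _ => 0) (k0 w) t 0 ^ 2 / 2 *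
    deriv (cur (fun _ => 0) (k0 w)) t 1 = 3 / 16 * Real.pi * w

end Pool.Agent.Y507.CMC
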